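import Pool.Agent.Y152.EF.Comb

/-!
# MP_60a66a_gt: explicit real-analytic flat metrics on every domain without analytic isometric
embedding into Euclidean 3-space

For a point `p = (a, b)` and `k > 0` consider the conformal metric

`g = exp (2 k² ((η - b)² - (ξ - a)²)) (dξ² + dη²)`

on the plane with the coordinates `(ξ, η)`. It is real-analytic and positive definite on the whole
plane, and locally Euclidean: its developing map is an error function. There is an absolute constant
`R` such that for every open set `D` which contains the closed square with the centre `p` and the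
side `2 R / k`, the surface `(D, g)` has no isometric embedding `r` into Euclidean 3-space such that
`r (D)` is a real-analytic surface at each of its points. Since `k` can be taken as large as one
wants, every bounded simply connected domain `D` (in fact every nonempty open set) carries such
metrics, around each of its points.

It is enough that `r` is an injective isometric immersion of class `C¹`, and that near each of its
points `r (D)` is contained in a real-analytic surface.

The starting file `CombDomain` has one domain (a comb with three teeth) with one metric, which is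
smooth but not real-analytic.
-/

set_option autoImplicit false

namespace Pool.Agent.Results.MP_60a66a_gt.SaddleMetrics

open Set Filter Topology Pool.Agent.Y152.EF
open scoped RealInnerProductSpace ContDiff

/-- Euclidean 3-space -/
abbrev Space : Type := EuclideanSpace ℝ (Fin 3)

/-- A quadratic form `E dξ² + 2 F dξ dη + G dη²` on the plane with the coordinates `(ξ, η)`, given
by its coefficient functions. -/
structure Form where
  E : ℝ × ℝ → ℝ
  F : ℝ × ℝ → ℝ
  G : ℝ × ℝ → ℝ

/-- The metric `exp (2 k² ((η - b)² - (ξ - a)²)) (dξ² + dη²)`, where `p = (a, b)`. -/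
noncomputable def saddle (p : ℝ × ℝ) (k : ℝ) : Form where
  E q := Real.exp (2 * k ^ 2 * ((q.2 - p.2) ^ 2 - (q.1 - p.1) ^ 2))
  F _ := 0
  G q := Real.exp (2 * k ^ 2 * ((q.2 - p.2) ^ 2 - (q.1 - p.1) ^ 2))

/-- `g` is a real-analytic Riemannian metric on the whole plane. -/
structure IsAnalyticMetric (g : Form) : Prop where
  analytic_E : AnalyticOnNhd ℝ g.E univ
  analytic_F : AnalyticOnNhd ℝ g.F univ
  analytic_G : AnalyticOnNhd ℝ g.G univ
  E_pos : ∀ q, 0 < g.E q
  det_pos : ∀ q, 0 < g.E q * g.G q - g.F q ^ 2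

/-- The map `φ` from `U` to the Euclidean plane pulls the Euclidean metric back to `g`. -/
def IsIsometric2 (g : Form) (U : Set (ℝ × ℝ)) (φ : ℝ × ℝ → ℝ × ℝ) : Prop :=
  ∀ q ∈ U,
    (fderiv ℝ φ q (1, 0)).1 ^ 2 + (fderiv ℝ φ q (1, 0)).2 ^ 2 = g.E q ∧
    (fderiv ℝ φ q (1, 0)).1 * (fderiv ℝ φ q (0, 1)).1 +
      (fderiv ℝ φ q (1, 0)).2 * (fderiv ℝ φ q (0, 1)).2 = g.F q ∧
    (fderiv ℝ φ q (0, 1)).1 ^ 2 + (fderiv ℝ φ q (0, 1)).2 ^ 2 = g.G q

/-- The metric `g` is locally Euclidean: each point of the plane has an open neighbourhood `U` with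
an injective smooth map `φ` onto an open subset of the plane that pulls the Euclidean metric back
to `g`. -/
def IsLocallyEuclidean (g : Form) : Prop :=
  ∀ q : ℝ × ℝ, ∃ U : Set (ℝ × ℝ), IsOpen U ∧ q ∈ U ∧ ∃ φ : ℝ × ℝ → ℝ × ℝ,
    ContDiffOn ℝ ∞ φ U ∧ InjOn φ U ∧ IsOpen (φ '' U) ∧ IsIsometric2 g U φ

/-- `r` is an injective isometric immersion of class `C¹` of `(D, g)` into Euclidean 3-space. -/
structure IsInjectiveIsometricImmersion (D : Set (ℝ × ℝ)) (g : Form) (r : ℝ × ℝ → Space) :
    Prop where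
  contDiffOn : ContDiffOn ℝ 1 r D
  injOn : InjOn r D
  isometric : ∀ q ∈ D, ⟪fderiv ℝ r q (1, 0), fderiv ℝ r q (1, 0)⟫ = g.E q ∧
    ⟪fderiv ℝ r q (1, 0), fderiv ℝ r q (0, 1)⟫ = g.F q ∧
    ⟪fderiv ℝ r q (0, 1), fderiv ℝ r q (0, 1)⟫ = g.G q

/-- Near `x` the set `S` is contained in a real-analytic surface: the zero set of a real-analytic
function without critical points in a neighbourhood `O` of `x`. -/
def InAnalyticSurfaceNear (S : Set Space) (x : Space) : Prop :=
  ∃ (O : Set Space) (f : Space → ℝ), IsOpen O ∧ x ∈ O ∧ AnalyticOnNhd ℝ f O ∧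
    (∀ y ∈ O, fderiv ℝ f y ≠ 0) ∧ ∀ y ∈ O, y ∈ S → f y = 0

/-- the developing map -/
noncomputable def dev (p : ℝ × ℝ) (k : ℝ) (q : ℝ × ℝ) : ℝ × ℝ :=
  (cst * k)⁻¹ • toV (FF (k • toC (q - p)))

theorem dev_hasFDerivAt (p : ℝ × ℝ) (k : ℝ) (q : ℝ × ℝ) :
    HasFDerivAt (dev p k) ((cst * k)⁻¹ • ((toV : ℂ →L[ℝ] ℝ × ℝ).comp
      (dF (k • toC (q - p)) • (k • toC)))) q := by
  have h1 : HasFDerivAt (fun q : ℝ × ℝ => k • toC (q - p)) (k • toC) q := by
    have h0 : HasFDerivAt (fun q : ℝ × ℝ => toC (q - p)) toC q := by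
      have h : HasFDerivAt (fun q : ℝ × ℝ => q - p) (ContinuousLinearMap.id ℝ (ℝ × ℝ)) q :=
        (hasFDerivAt_id q).sub_const p
      have h' := (toC.hasFDerivAt (x := q - p)).comp q h
      rw [ContinuousLinearMap.comp_id] at h'
      exact h'
    exact h0.const_smul k
  have h2 : HasFDerivAt (fun q : ℝ × ℝ => FF (k • toC (q - p)))
      (dF (k • toC (q - p)) • (k • toC)) q := (FF_hasDerivAt _).comp_hasFDerivAt q h1
  exact ((toV : ℂ →L[ℝ] ℝ × ℝ).hasFDerivAt.comp q h2).const_smul (cst * k)⁻¹

theorem dev_dot (p : ℝ × ℝ) {k : ℝ} (hk : 0 < k) (q u v : ℝ × ℝ) :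
    (fderiv ℝ (dev p k) q u).1 * (fderiv ℝ (dev p k) q v).1 +
      (fderiv ℝ (dev p k) q u).2 * (fderiv ℝ (dev p k) q v).2 =
      fac p k q * (u.1 * v.1 + u.2 * v.2) := by
  set w : ℂ := k • toC (q - p) with hw
  have e : ∀ u, fderiv ℝ (dev p k) q u = (cst * k)⁻¹ • toV ((dF w * k) * toC u) := by
    intro u
    rw [(dev_hasFDerivAt p k q).fderiv]
    change (cst * k)⁻¹ • toV (dF w * (k • toC u)) = _
    congr 2
    rw [Complex.real_smul]
    ring
  have h1 := Pool.Agent.Y152.EF.dot_smul (cst * k)⁻¹ (toV ((dF w * k) * toC u))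
    (toV ((dF w * k) * toC v))
  rw [dot_conf, ← e, ← e] at h1
  have h2 : ‖dF w‖ ^ 2 = cst ^ 2 * fac p k q := by
    rw [norm_dF, mul_pow, ← Real.exp_nat_mul, fac]
    congr 2
    rw [hw, toC_apply, Complex.real_smul]
    simp only [Complex.mul_im, Complex.mul_re, Complex.ofReal_re, Complex.ofReal_im, Prod.fst_sub,
      Prod.snd_sub]
    push_cast
    ring
  have h3 : ‖dF w * (k : ℂ)‖ ^ 2 = cst ^ 2 * fac p k q * k ^ 2 := by
    rw [norm_mul, mul_pow, h2, Complex.norm_real, Real.norm_of_nonneg hk.le]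
  rw [h3] at h1
  have hc := cst_pos.ne'
  have hk' := hk.ne'
  have h4 : (cst * k)⁻¹ ^ 2 * (cst ^ 2 * fac p k q * k ^ 2 *
      Pool.Agent.Helper962.Flat.dot u v) = fac p k q * Pool.Agent.Helper962.Flat.dot u v := by
    field_simp
  rw [h4] at h1
  exact h1

theorem saddle_analytic (p : ℝ × ℝ) (k : ℝ) : IsAnalyticMetric (saddle p k) := by
  have h : AnalyticOnNhd ℝ (fun q : ℝ × ℝ =>
      Real.exp (2 * k ^ 2 * ((q.2 - p.2) ^ 2 - (q.1 - p.1) ^ 2))) univ := by
    intro q _
    have h1 : AnalyticAt ℝ (fun q : ℝ × ℝ => q.1) q := analyticAt_fst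
    have h2 : AnalyticAt ℝ (fun q : ℝ × ℝ => q.2) q := analyticAt_snd
    fun_prop
  refine ⟨h, analyticOnNhd_const, h, fun q => Real.exp_pos _, fun q => ?_⟩
  simp [saddle]

theorem saddle_flat (p : ℝ × ℝ) {k : ℝ} (hk : 0 < k) : IsLocallyEuclidean (saddle p k) := by
  intro q
  have hc := cst_pos.ne'
  have hk' := hk.ne'
  have hck : cst * k ≠ 0 := mul_ne_zero hc hk'
  obtain ⟨e, he, hFe⟩ := hloc (k • toC (q - p))
  have hA : Continuous fun q : ℝ × ℝ => k • toC (q - p) := by fun_prop
  have hcV : ∀ x : ℝ × ℝ, toV (toC x) = x := fun x => by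
    rw [toC_apply]
    rfl
  have hcC : ∀ w : ℂ, toC (toV w) = w := fun w => by
    rw [toC_apply]
    rfl
  refine ⟨(fun q => k • toC (q - p)) ⁻¹' e.source, e.open_source.preimage hA, he, dev p k, ?_, ?_,
    ?_, ?_⟩
  · have h1 : ContDiff ℝ ∞ FF := by
      have hd : Differentiable ℂ FF := fun w => (FF_hasDerivAt w).differentiableAt
      exact (hd.contDiff (n := ∞)).restrict_scalars ℝ
    have h2 : ContDiff ℝ ∞ fun q : ℝ × ℝ => k • toC (q - p) :=
      (toC.contDiff.comp (contDiff_id.sub contDiff_const)).const_smul k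
    exact (((toV : ℂ →L[ℝ] ℝ × ℝ).contDiff.comp (h1.comp h2)).const_smul _).contDiffOn
  · intro x hx y hy hxy
    have h1 : toV (FF (k • toC (x - p))) = toV (FF (k • toC (y - p))) :=
      smul_right_injective _ (inv_ne_zero hck) hxy
    have h2 := toV.injective h1
    rw [hFe] at h2
    have h3 := e.injOn hx hy h2
    have h4 : toC (x - p) = toC (y - p) := smul_right_injective _ hk' h3
    have h5 : x - p = y - p := by
      rw [← hcV (x - p), h4, hcV]
    exact sub_left_injective h5
  · have hset : dev p k '' ((fun q => k • toC (q - p)) ⁻¹' e.source) =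
        (fun x : ℝ × ℝ => toC ((cst * k) • x)) ⁻¹' e.target := by
      ext x
      constructor
      · rintro ⟨y, hy, rfl⟩
        change toC ((cst * k) • dev p k y) ∈ e.target
        rw [dev, smul_smul, mul_inv_cancel₀ hck, one_smul, hcC, hFe]
        exact e.map_source hy
      · intro hx
        have h1 : e.symm (toC ((cst * k) • x)) ∈ e.source := e.map_target hx
        have h2 : k • toC (p + k⁻¹ • toV (e.symm (toC ((cst * k) • x))) - p) =
            e.symm (toC ((cst * k) • x)) := by
          rw [add_sub_cancel_left, map_smul, smul_smul, mul_inv_cancel₀ hk', one_smul, hcC]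
        refine ⟨p + k⁻¹ • toV (e.symm (toC ((cst * k) • x))), ?_, ?_⟩
        · change k • toC (p + k⁻¹ • toV (e.symm (toC ((cst * k) • x))) - p) ∈ e.source
          rw [h2]
          exact h1
        · rw [dev, h2, hFe, e.right_inv hx, hcV, smul_smul, inv_mul_cancel₀ hck, one_smul]
    rw [hset]
    refine e.open_target.preimage ?_
    fun_prop
  · intro x _
    have h11 := dev_dot p hk x (1, 0) (1, 0)
    have h12 := dev_dot p hk x (1, 0) (0, 1)
    have h22 := dev_dot p hk x (0, 1) (0, 1)
    simp only [mul_one, mul_zero, add_zero, zero_add] at h11 h12 h22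
    refine ⟨?_, ?_, ?_⟩
    · rw [sq, sq, h11]
      rfl
    · rw [h12]
      rfl
    · rw [sq, sq, h22]
      rfl

/-- **Theorem.** There is a constant `R > 0` such that for all points `p` of the plane, all `k > 0`
and all open sets `D` which contain the closed square with the centre `p` and the side `2 R / k`:
the metric `saddle p k = exp (2 k² ((η - b)² - (ξ - a)²)) (dξ² + dη²)` is real-analytic and locally
Euclidean on the whole plane, and for every injective isometric immersion `r` of class `C¹` of `D`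
with this metric into Euclidean 3-space there is a point `q` of `D` such that `r (D)` is not
contained in any real-analytic surface near `r (q)`. -/
theorem result : ∃ R : ℝ, 0 < R ∧ ∀ (p : ℝ × ℝ) (k : ℝ), 0 < k →
    IsAnalyticMetric (saddle p k) ∧ IsLocallyEuclidean (saddle p k) ∧
    ∀ D : Set (ℝ × ℝ), IsOpen D → Metric.closedBall p (R / k) ⊆ D →
      ∀ r : ℝ × ℝ → Space, IsInjectiveIsometricImmersion D (saddle p k) r →
        ∃ q ∈ D, ¬ InAnalyticSurfaceNear (r '' D) (r q) := by
  obtain ⟨R, hR, h⟩ := no_immersion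
  refine ⟨R, hR, fun p k hk => ⟨saddle_analytic p k, saddle_flat p hk, ?_⟩⟩
  intro D hD hball r hr
  by_contra hcon
  push Not at hcon
  refine h p k hk D hD (fun q hq => hball hq) r hr.contDiffOn ?_ hr.injOn hcon
  intro q hq u v
  obtain ⟨h11, h12, h22⟩ := hr.isometric q hq
  have e : ∀ v : ℝ × ℝ, fderiv ℝ r q v = v.1 • fderiv ℝ r q (1, 0) + v.2 • fderiv ℝ r q (0, 1) := by
    intro v
    have e1 : v = v.1 • ((1, 0) : ℝ × ℝ) + v.2 • ((0, 1) : ℝ × ℝ) := by
      ext <;> simp
    conv_lhs => rw [e1]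
    rw [map_add, map_smul, map_smul]
  rw [e u, e v]
  simp only [inner_add_left, inner_add_right, inner_smul_left, inner_smul_right, conj_trivial]
  rw [real_inner_comm (fderiv ℝ r q (1, 0)) (fderiv ℝ r q (0, 1)), h11, h12, h22]
  simp only [saddle, fac, Pool.Agent.Helper962.Flat.dot]
  ring

end Pool.Agent.Results.MP_60a66a_gt.SaddleMetrics
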